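import Mathlib
import Pool.Agent.H955R3.WindowC

/-!
# A lower bound for the inhomogeneous minimum at the points `1/(ε-1) + 1/(ε^j-1)`

`K` is a number field whose norm is `|N x| = v(x)^a w(x)^b` for two absolute values `v`, `w` and
`a, b ∈ {1, 2}` (that is, a number field of unit rank one).
-/

open NumberField IsDedekindDomain
open scoped nonZeroDivisors

namespace Pool.Agent.Y699.W

open Pool.Agent.H955R3.Window

theorem real1 (a : ℕ) (ha : a = 1 ∨ a = 2) (A s C : ℝ) (hA : 0 ≤ A) (hAC : A ≤ C) (hs : 0 ≤ s)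
    (hs1 : s ≤ 1) : (A + s) ^ a ≤ A ^ a + s * (2 * C + 1) := by
  rcases ha with rfl | rfl
  · nlinarith
  · nlinarith [mul_le_mul_of_nonneg_left hAC hs, mul_le_mul_of_nonneg_left hs1 hs]

theorem pow_le_sq (a : ℕ) (ha : a = 1 ∨ a = 2) (A C : ℝ) (hA : 0 ≤ A) (hAC : A ≤ C) :
    A ^ a ≤ (C + 1) ^ 2 := by
  rcases ha with rfl | rfl
  · nlinarith
  · nlinarith

theorem real2 (a b : ℕ) (ha : a = 1 ∨ a = 2) (hb : b = 1 ∨ b = 2) (A B s C : ℝ) (hA : 0 ≤ A)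
    (hAC : A ≤ C) (hB : 0 ≤ B) (hBC : B ≤ C) (hs : 0 ≤ s) (hs1 : s ≤ 1) :
    (A + s) ^ a * (B + s) ^ b ≤
      A ^ a * B ^ b + s * (2 * ((2 * C + 1) * (C + 1) ^ 2) + (2 * C + 1) ^ 2) := by
  have hC : 0 ≤ C := hA.trans hAC
  have h1 := real1 a ha A s C hA hAC hs hs1
  have h2 := real1 b hb B s C hB hBC hs hs1
  have h3 := pow_le_sq a ha A C hA hAC
  have h4 := pow_le_sq b hb B C hB hBC
  have hA' : 0 ≤ A ^ a := by positivity
  have hB' : 0 ≤ B ^ b := by positivity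
  have hL : 0 ≤ s * (2 * C + 1) := by positivity
  calc (A + s) ^ a * (B + s) ^ b
      ≤ (A ^ a + s * (2 * C + 1)) * (B ^ b + s * (2 * C + 1)) := by
        apply mul_le_mul h1 h2 (by positivity) (by positivity)
    _ = A ^ a * B ^ b + (s * (2 * C + 1)) * (A ^ a + B ^ b) + s * (s * (2 * C + 1) ^ 2) := by ring
    _ ≤ A ^ a * B ^ b + (s * (2 * C + 1)) * ((C + 1) ^ 2 + (C + 1) ^ 2)
        + s * (1 * (2 * C + 1) ^ 2) := by gcongr
    _ = _ := by ring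


theorem est1 (E T : ℝ) (i0 j : ℕ) (hv : 1 < E) (hi0j : i0 + 1 ≤ j) (hvt : E ^ j - 1 ≤ T)
    (hT : 0 < T) : E ^ i0 / T ≤ 1 / (E - 1) := by
  have hE1 : 0 < E - 1 := by linarith
  rw [div_le_div_iff₀ hT hE1, one_mul]
  have h1 : E ^ i0 * E ≤ E ^ j := by
    rw [← pow_succ]; exact pow_le_pow_right₀ hv.le hi0j
  have h2 : 1 ≤ E ^ i0 := one_le_pow₀ hv.le
  have h3 : E ^ i0 * (E - 1) = E ^ i0 * E - E ^ i0 := by ring
  rw [h3]; linarith

theorem est2 (F T : ℝ) (i0 : ℕ) (hF0 : 0 < F) (hF1 : F < 1) (hwt : 1 - F ≤ T) :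
    F ^ i0 / T ≤ 1 / (1 - F) := by
  have h2 : F ^ i0 ≤ 1 := pow_le_one₀ hF0.le hF1.le
  have h0 : 0 < 1 - F := by linarith
  have hT : 0 < T := by linarith
  calc F ^ i0 / T ≤ 1 / T := by gcongr
    _ ≤ 1 / (1 - F) := by gcongr

theorem est3 (E F S T X κ : ℝ) (a b i0 : ℕ) (ha0 : a ≠ 0) (hEF : E ^ a * F ^ b = 1)
    (hF1 : F < 1) (hκ0 : 0 < κ) (hX1 : 1 ≤ X) (h4 : 4 * κ / (1 - F) ^ b ≤ X) (hXS : X < S)
    (hwt : 1 - F ≤ T) :
    (E ^ i0 / S) ^ a * (F ^ i0 / T) ^ b ≤ 1 / (4 * κ) := by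
  have h0 : 0 < 1 - F := by linarith
  have hT : 0 < T := by linarith
  have hS : 0 < S := by linarith
  have hX0 : 0 ≤ X := by linarith
  have h1 : (E ^ i0 / S) ^ a * (F ^ i0 / T) ^ b = 1 / (S ^ a * T ^ b) := by
    rw [div_pow, div_pow, div_mul_div_comm, ← pow_mul, ← pow_mul, mul_comm i0 a, mul_comm i0 b,
      pow_mul, pow_mul, ← mul_pow, hEF, one_pow]
  rw [h1]
  apply one_div_le_one_div_of_le (by positivity)
  have h2 : X ≤ S ^ a := by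
    calc X ≤ X ^ a := le_self_pow₀ hX1 ha0
      _ ≤ S ^ a := pow_le_pow_left₀ hX0 hXS.le a
  have h3 : (1 - F) ^ b ≤ T ^ b := pow_le_pow_left₀ h0.le hwt b
  calc 4 * κ = 4 * κ / (1 - F) ^ b * (1 - F) ^ b := by field_simp
    _ ≤ S ^ a * T ^ b := by
      apply mul_le_mul (h4.trans h2) h3 (by positivity) (by positivity)

theorem est4 (a b : ℕ) (ha : a = 1 ∨ a = 2) (hb : b = 1 ∨ b = 2) (A B s C V W x y κ : ℝ)
    (hA : 0 ≤ A) (hAC : A ≤ C) (hB : 0 ≤ B) (hBC : B ≤ C) (hs : 0 ≤ s) (hs1 : s ≤ 1)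
    (hV : 0 ≤ V) (hW : 0 ≤ W) (hx : 0 ≤ x) (hy : 0 ≤ y) (hκ : κ = V ^ a * W ^ b) (hκ0 : 0 < κ)
    (hxV : x ≤ V * (A + s)) (hyW : y ≤ W * (B + s)) (hAB : A ^ a * B ^ b ≤ 1 / (4 * κ))
    (hsM : κ * (s * (2 * ((2 * C + 1) * (C + 1) ^ 2) + (2 * C + 1) ^ 2)) ≤ 1 / 4) :
    x ^ a * y ^ b ≤ 1 / 2 := by
  have h0 := real2 a b ha hb A B s C hA hAC hB hBC hs hs1
  have h1 : x ^ a ≤ (V * (A + s)) ^ a := pow_le_pow_left₀ hx hxV a
  have h2 : y ^ b ≤ (W * (B + s)) ^ b := pow_le_pow_left₀ hy hyW b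
  have h3 : x ^ a * y ^ b ≤ (V * (A + s)) ^ a * (W * (B + s)) ^ b :=
    mul_le_mul h1 h2 (by positivity) (by positivity)
  have h4 : (V * (A + s)) ^ a * (W * (B + s)) ^ b = κ * ((A + s) ^ a * (B + s) ^ b) := by
    rw [mul_pow, mul_pow, hκ]; ring
  rw [h4] at h3
  have h5 : κ * ((A + s) ^ a * (B + s) ^ b) ≤
      κ * (A ^ a * B ^ b + s * (2 * ((2 * C + 1) * (C + 1) ^ 2) + (2 * C + 1) ^ 2)) :=
    mul_le_mul_of_nonneg_left h0 hκ0.le
  have h6 : κ * (A ^ a * B ^ b) ≤ κ * (1 / (4 * κ)) := mul_le_mul_of_nonneg_left hAB hκ0.le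
  have h7 : κ * (1 / (4 * κ)) = 1 / 4 := by field_simp
  rw [mul_add] at h5
  linarith

theorem balance (a b : ℕ) (hb0 : b ≠ 0) (E F p r θ s : ℝ) (hv : 1 < E) (hF0 : 0 < F)
    (hEF : E ^ a * F ^ b = 1) (hp : 0 < p) (hr : 0 < r) (hθ0 : 0 < θ) (hθ : θ = s / E)
    (hθs : θ ≤ s) (hNz : p ^ a * r ^ b < θ ^ (a + b)) :
    ∃ i : ℤ, E ^ i * p ≤ s ∧ F ^ i * r ≤ s := by
  have hE0 : 0 < E := by linarith
  obtain ⟨n, hn1, hn2⟩ := exists_mem_Ico_zpow (div_pos hp hθ0) hv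
  refine ⟨-n, ?_, ?_⟩
  · have h1 : p < E ^ (n + 1) * θ := by rwa [div_lt_iff₀ hθ0] at hn2
    have h2 : E ^ (-n) * p < E ^ (-n) * (E ^ (n + 1) * θ) :=
      mul_lt_mul_of_pos_left h1 (by positivity)
    have h3 : E ^ (-n) * (E ^ (n + 1) * θ) = s := by
      rw [← mul_assoc, ← zpow_add₀ hE0.ne', hθ]
      have : -n + (n + 1) = 1 := by ring
      rw [this, zpow_one]; field_simp
    linarith
  · have h1 : E ^ n * θ ≤ p := by rwa [le_div_iff₀ hθ0] at hn1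
    have h2 : θ ≤ E ^ (-n) * p := by
      calc θ = E ^ (-n) * (E ^ n * θ) := by
            rw [← mul_assoc, ← zpow_add₀ hE0.ne']; simp
        _ ≤ E ^ (-n) * p := by gcongr
    have h3 : (E ^ (-n) * p) ^ a * (F ^ (-n) * r) ^ b = p ^ a * r ^ b := by
      have h4 : (E ^ (-n)) ^ a * (F ^ (-n)) ^ b = 1 := by
        rw [← zpow_natCast, ← zpow_natCast, ← zpow_mul, ← zpow_mul, mul_comm (-n) (a : ℤ),
          mul_comm (-n) (b : ℤ), zpow_mul, zpow_mul, ← mul_zpow, zpow_natCast, zpow_natCast,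
          hEF, one_zpow]
      calc (E ^ (-n) * p) ^ a * (F ^ (-n) * r) ^ b
          = ((E ^ (-n)) ^ a * (F ^ (-n)) ^ b) * (p ^ a * r ^ b) := by
            rw [mul_pow, mul_pow]; ring
        _ = _ := by rw [h4, one_mul]
    have h5 : θ ^ a * (F ^ (-n) * r) ^ b < θ ^ a * θ ^ b := by
      calc θ ^ a * (F ^ (-n) * r) ^ b ≤ (E ^ (-n) * p) ^ a * (F ^ (-n) * r) ^ b := by
            gcongr
        _ = p ^ a * r ^ b := h3
        _ < θ ^ (a + b) := hNz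
        _ = θ ^ a * θ ^ b := pow_add _ _ _
    have h6 : (F ^ (-n) * r) ^ b < θ ^ b := lt_of_mul_lt_mul_left h5 (by positivity)
    have h7 : F ^ (-n) * r < θ := lt_of_pow_lt_pow_left₀ b hθ0.le h6
    linarith

variable {K : Type*} [Field K] [NumberField K]

theorem cmul (x y : 𝓞 K) : ((x * y : 𝓞 K) : K) = (x : K) * (y : K) :=
  map_mul (algebraMap (𝓞 K) K) x y

theorem cadd (x y : 𝓞 K) : ((x + y : 𝓞 K) : K) = (x : K) + (y : K) :=
  map_add (algebraMap (𝓞 K) K) x y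

theorem csub (x y : 𝓞 K) : ((x - y : 𝓞 K) : K) = (x : K) - (y : K) :=
  map_sub (algebraMap (𝓞 K) K) x y

theorem cpow (x : 𝓞 K) (n : ℕ) : ((x ^ n : 𝓞 K) : K) = (x : K) ^ n :=
  map_pow (algebraMap (𝓞 K) K) x n

theorem cone : ((1 : 𝓞 K) : K) = 1 := map_one (algebraMap (𝓞 K) K)

theorem one_le_abs_norm' (r : 𝓞 K) (hr : r ≠ 0) :
    1 ≤ |((Algebra.norm ℚ (r : K) : ℚ) : ℝ)| := by
  have h1 : Algebra.norm ℚ (r : K) = ((Algebra.norm ℤ r : ℤ) : ℚ) := by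
    rw [← Algebra.coe_norm_int]
  rw [h1]
  have h2 : Algebra.norm ℤ r ≠ 0 := by
    rwa [Ne, Algebra.norm_eq_zero_iff]
  have h3 : 1 ≤ |Algebra.norm ℤ r| := Int.one_le_abs h2
  have h4 : ((1 : ℤ) : ℝ) ≤ ((|Algebra.norm ℤ r| : ℤ) : ℝ) := Int.cast_le.mpr h3
  push_cast at h4 ⊢
  exact h4

omit [NumberField K] in
theorem abs_sub_le' (v : AbsoluteValue K ℝ) (x y : K) : v (x - y) ≤ v x + v y := by
  have h := v.add_le x (-y)
  rw [v.map_neg] at h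
  rwa [← sub_eq_add_neg] at h

theorem unit_norm (ε : (𝓞 K)ˣ) : |((Algebra.norm ℚ ((ε : 𝓞 K) : K) : ℚ) : ℝ)| = 1 := by
  have h1 : Algebra.norm ℚ ((ε : 𝓞 K) : K) = ((Algebra.norm ℤ (ε : 𝓞 K) : ℤ) : ℚ) := by
    rw [← Algebra.coe_norm_int]
  have h2 : IsUnit (Algebra.norm ℤ (ε : 𝓞 K)) := ε.isUnit.map _
  rw [h1]
  rcases Int.isUnit_iff.mp h2 with h | h <;> rw [h] <;> simp

set_option maxHeartbeats 4000000 in
/-- **Key lower bound.**  The points `1/(ε-1) + 1/(ε^j-1)` stay at distance from the integers. -/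
theorem key (v w : AbsoluteValue K ℝ) (a b : ℕ) (ha : a = 1 ∨ a = 2) (hb : b = 1 ∨ b = 2)
    (hN : ∀ x : K, |((Algebra.norm ℚ x : ℚ) : ℝ)| = v x ^ a * w x ^ b)
    (ε : (𝓞 K)ˣ) (hv : 1 < v ((ε : 𝓞 K) : K)) (hnu : ¬ IsUnit ((ε : 𝓞 K) - 1)) :
    ∃ δ : ℝ, 0 < δ ∧ ∃ J : ℕ, ∀ j : ℕ, J ≤ j → ∀ q : 𝓞 K,
      δ * |((Algebra.norm ℚ ((((ε : 𝓞 K) - 1) * ((ε : 𝓞 K) ^ j - 1) : 𝓞 K) : K) : ℚ) : ℝ)| ≤
      |((Algebra.norm ℚ (((((ε : 𝓞 K) ^ j - 1) + ((ε : 𝓞 K) - 1)) -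
        (((ε : 𝓞 K) - 1) * ((ε : 𝓞 K) ^ j - 1)) * q : 𝓞 K) : K) : ℚ) : ℝ)| := by
  set e : K := ((ε : 𝓞 K) : K) with he
  set E : ℝ := v e with hE
  set F : ℝ := w e with hF
  have hE0 : 0 < E := by linarith
  have he0 : e ≠ 0 := by
    intro h; rw [hE, h, v.map_zero] at hv; linarith
  have hF0 : 0 < F := w.pos he0
  have hEF : E ^ a * F ^ b = 1 := by rw [hE, hF, ← hN, he, unit_norm]
  have ha0 : a ≠ 0 := by rcases ha with rfl | rfl <;> norm_num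
  have hb0 : b ≠ 0 := by rcases hb with rfl | rfl <;> norm_num
  have hF1 : F < 1 := by
    by_contra h
    push Not at h
    have h1 : 1 < E ^ a := one_lt_pow₀ hv ha0
    have h2 : 1 ≤ F ^ b := one_le_pow₀ h
    nlinarith
  have he1 : e - 1 ≠ 0 := by
    intro h
    have : e = 1 := by linear_combination h
    rw [hE, this, v.map_one] at hv; linarith
  have hκv : 0 < v (e - 1) := v.pos he1
  have hκw : 0 < w (e - 1) := w.pos he1
  set κ : ℝ := v (e - 1) ^ a * w (e - 1) ^ b with hκ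
  have hκ0 : 0 < κ := by positivity
  set C : ℝ := max (1 / (E - 1)) (1 / (1 - F)) with hC
  have hE1 : 0 < E - 1 := by linarith
  have hF1' : 0 < 1 - F := by linarith
  have hC0 : 0 < C := lt_of_lt_of_le (by positivity : (0 : ℝ) < 1 / (E - 1)) (le_max_left _ _)
  set M : ℝ := 2 * ((2 * C + 1) * (C + 1) ^ 2) + (2 * C + 1) ^ 2 with hM
  have hM0 : 0 < M := by positivity
  set s : ℝ := min 1 (1 / (4 * κ * M)) with hs
  have hs0 : 0 < s := lt_min one_pos (by positivity)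
  have hs1 : s ≤ 1 := min_le_left _ _
  have hsM : κ * (s * M) ≤ 1 / 4 := by
    have h1 : s ≤ 1 / (4 * κ * M) := min_le_right _ _
    calc κ * (s * M) ≤ κ * (1 / (4 * κ * M) * M) := by gcongr
      _ = 1 / 4 := by field_simp
  set θ : ℝ := s / E with hθ
  have hθ0 : 0 < θ := by positivity
  have hθs : θ ≤ s := by
    rw [hθ, div_le_iff₀ hE0]; nlinarith
  set X : ℝ := max 1 (4 * κ / (1 - F) ^ b) with hX
  have hX1 : 1 ≤ X := le_max_left _ _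
  obtain ⟨J0, hJ0⟩ := pow_unbounded_of_one_lt (X + 1) hv
  refine ⟨θ ^ (a + b), by positivity, max J0 1, ?_⟩
  intro j hj q
  have hj1 : 1 ≤ j := le_trans (le_max_right _ _) hj
  have hjJ : J0 ≤ j := le_trans (le_max_left _ _) hj
  have hEj : X + 1 < E ^ j := lt_of_lt_of_le hJ0 (pow_le_pow_right₀ hv.le hjJ)
  by_contra hcon
  push Not at hcon
  set t : 𝓞 K := (ε : 𝓞 K) ^ j - 1 with ht
  have htK : (t : K) = e ^ j - 1 := by rw [ht]; push_cast; rfl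
  have hvt : E ^ j - 1 ≤ v (t : K) := by
    have h := v.le_sub (e ^ j) 1
    rw [v.map_pow, v.map_one] at h
    rw [htK]; exact h
  have hvtX : X < v (t : K) := by linarith
  have hvt0 : 0 < v (t : K) := by linarith
  have htK0 : (t : K) ≠ 0 := by
    intro h; rw [h, v.map_zero] at hvt0; exact lt_irrefl _ hvt0
  have hFj : F ^ j ≤ F := by
    calc F ^ j ≤ F ^ 1 := pow_le_pow_of_le_one hF0.le hF1.le hj1
      _ = F := pow_one F
  have hwt : 1 - F ≤ w (t : K) := by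
    have h := w.le_sub 1 (e ^ j)
    rw [w.map_pow, w.map_one, w.map_sub] at h
    rw [htK]; linarith
  have hwt0 : 0 < w (t : K) := by linarith
  set B : 𝓞 K := ((ε : 𝓞 K) - 1) * t with hB
  have hBK : (B : K) = (e - 1) * t := by rw [hB]; push_cast; rfl
  have hBK0 : (B : K) ≠ 0 := by rw [hBK]; exact mul_ne_zero he1 htK0
  set r : 𝓞 K := (t + ((ε : 𝓞 K) - 1)) - B * q with hr
  have hrK : (r : K) = (t : K) + (e - 1) - (B : K) * (q : K) := by rw [hr]; push_cast; rfl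
  set z : K := (r : K) / (B : K) with hz
  have hNB : 0 < |((Algebra.norm ℚ (B : K) : ℚ) : ℝ)| := by
    have := one_le_abs_norm' B (by intro h; apply hBK0; rw [h]; rfl)
    linarith
  have hNz : v z ^ a * w z ^ b < θ ^ (a + b) := by
    have h1 : v z ^ a * w z ^ b = |((Algebra.norm ℚ (r : K) : ℚ) : ℝ)| /
        |((Algebra.norm ℚ (B : K) : ℚ) : ℝ)| := by
      rw [hN, hN, hz, map_div₀, map_div₀, div_pow, div_pow, div_mul_div_comm]
    rw [h1, div_lt_iff₀ hNB]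
    exact hcon
  -- the balancing exponent
  have hbal : ∃ i : ℤ, E ^ i * v z ≤ s ∧ F ^ i * w z ≤ s := by
    by_cases hz0 : z = 0
    · refine ⟨0, ?_, ?_⟩ <;> rw [hz0] <;> simp [hs0.le]
    · exact balance a b hb0 E F (v z) (w z) θ s hv hF0 hEF (v.pos hz0) (w.pos hz0) hθ0 hθ hθs hNz
  obtain ⟨i, hi1, hi2⟩ := hbal
  -- reduction of the exponent modulo `j`
  have hjZ : (0 : ℤ) < j := by exact_mod_cast hj1
  set i0 : ℕ := (i % j).toNat with hi0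
  have hi0' : (i0 : ℤ) = i % j := Int.toNat_of_nonneg (Int.emod_nonneg _ hjZ.ne')
  have hi0j : i0 + 1 ≤ j := by
    have := Int.emod_lt_of_pos i hjZ
    omega
  have hisplit : i = (i0 : ℤ) + j * (i / j) := by
    rw [hi0']; exact (Int.emod_add_mul_ediv i j).symm
  obtain ⟨u, hu⟩ := unit_sub_one_dvd_zpow (ε ^ j) (i / j)
  have hu' : (((ε ^ j : (𝓞 K)ˣ) ^ (i / j) : (𝓞 K)ˣ) : 𝓞 K) = 1 + t * u := by
    have : (((ε ^ j : (𝓞 K)ˣ)) : 𝓞 K) - 1 = t := by rw [ht]; push_cast; rfl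
    rw [this] at hu
    linear_combination hu
  have hεi : (ε ^ i : (𝓞 K)ˣ) = ε ^ i0 * (ε ^ j) ^ (i / j) := by
    conv_lhs => rw [hisplit]
    rw [zpow_add, zpow_mul, zpow_natCast, zpow_natCast]
  set Q : 𝓞 K := ((ε ^ i : (𝓞 K)ˣ) : 𝓞 K) * (1 - ((ε : 𝓞 K) - 1) * q) +
    ((ε : 𝓞 K) - 1) * ((ε : 𝓞 K) ^ i0 * u) with hQ
  have hQ0 : Q ≠ 0 := by
    intro h
    apply hnu
    apply isUnit_of_dvd_unit _ (ε ^ i).isUnit
    refine ⟨((ε ^ i : (𝓞 K)ˣ) : 𝓞 K) * q - (ε : 𝓞 K) ^ i0 * u, ?_⟩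
    rw [hQ] at h
    linear_combination h
  have hεiK : ((((ε ^ i : (𝓞 K)ˣ) : 𝓞 K)) : K) = e ^ i0 * (1 + (t : K) * (u : K)) := by
    have h1 : (((((ε ^ j : (𝓞 K)ˣ) ^ (i / j) : (𝓞 K)ˣ) : 𝓞 K)) : K) =
        ((1 + t * u : 𝓞 K) : K) := by rw [hu']
    have h2 : ((((ε ^ i : (𝓞 K)ˣ) : 𝓞 K)) : K) = ((((ε ^ i0 : (𝓞 K)ˣ) : 𝓞 K)) : K) *
        (((((ε ^ j : (𝓞 K)ˣ) ^ (i / j) : (𝓞 K)ˣ) : 𝓞 K)) : K) := by
      rw [hεi, Units.val_mul, cmul]
    rw [h2, h1, Units.val_pow_eq_pow_val, cpow, cadd, cmul, cone]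
  have hεiK' : ((((ε ^ i : (𝓞 K)ˣ) : 𝓞 K)) : K) = e ^ i := by
    rw [he]
    exact NumberField.Units.coe_zpow ε i
  have hQK : (Q : K) = (e - 1) * (e ^ i * z) - (e - 1) * (e ^ i0 / (t : K)) := by
    have h1 : (Q : K) = e ^ i * (1 - (e - 1) * (q : K)) + (e - 1) * (e ^ i0 * (u : K)) := by
      rw [hQ, cadd, cmul, cmul, cmul, csub, cmul, csub, cpow, cone, ← hεiK']
    have h2 : (e - 1) * z * (t : K) = (r : K) := by
      rw [hz, hBK]; field_simp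
    have h3 : e ^ i = e ^ i0 * (1 + (t : K) * (u : K)) := by rw [← hεiK', hεiK]
    rw [h1]
    have h4 : (e - 1) * (e ^ i * z) = e ^ i * ((e - 1) * z * (t : K)) / (t : K) := by
      field_simp
    rw [h4, h2, hrK, hBK]
    rw [eq_comm, ← sub_eq_zero]
    field_simp
    rw [h3]
    ring
  have hvQ : v (Q : K) ≤ v (e - 1) * (E ^ i0 / v (t : K) + s) := by
    rw [hQK]
    refine (abs_sub_le' v _ _).trans ?_
    rw [v.map_mul, v.map_mul, v.map_mul, map_div₀ v (e ^ i0) (t : K), v.map_pow, map_zpow₀]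
    rw [mul_add, add_comm]
    gcongr
  have hwQ : w (Q : K) ≤ w (e - 1) * (F ^ i0 / w (t : K) + s) := by
    rw [hQK]
    refine (abs_sub_le' w _ _).trans ?_
    rw [w.map_mul, w.map_mul, w.map_mul, map_div₀ w (e ^ i0) (t : K), w.map_pow, map_zpow₀]
    rw [mul_add, add_comm]
    gcongr
  have hAC : E ^ i0 / v (t : K) ≤ C :=
    (est1 E (v (t : K)) i0 j hv hi0j hvt hvt0).trans (le_max_left _ _)
  have hBC : F ^ i0 / w (t : K) ≤ C :=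
    (est2 F (w (t : K)) i0 hF0 hF1 hwt).trans (le_max_right _ _)
  have hprod : (E ^ i0 / v (t : K)) ^ a * (F ^ i0 / w (t : K)) ^ b ≤ 1 / (4 * κ) :=
    est3 E F (v (t : K)) (w (t : K)) X κ a b i0 ha0 hEF hF1 hκ0 hX1 (le_max_right _ _) hvtX hwt
  have hfinal : |((Algebra.norm ℚ (Q : K) : ℚ) : ℝ)| ≤ 1 / 2 := by
    rw [hN]
    exact est4 a b ha hb (E ^ i0 / v (t : K)) (F ^ i0 / w (t : K)) s C (v (e - 1)) (w (e - 1))
      (v (Q : K)) (w (Q : K)) κ (div_nonneg (pow_nonneg hE0.le _) hvt0.le) hAC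
      (div_nonneg (pow_nonneg hF0.le _) hwt0.le) hBC hs0.le hs1 hκv.le hκw.le (v.nonneg _)
      (w.nonneg _) hκ hκ0 hvQ hwQ hprod hsM
  have := one_le_abs_norm' Q hQ0
  linarith

end Pool.Agent.Y699.W
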