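import Mathlib
import Pool.Agent.H955R3.WindowC
import Pool.Agent.Y699.W.Key

/-!
# Euclidean windows over number fields of unit rank one
-/

open NumberField IsDedekindDomain
open scoped nonZeroDivisors

namespace Pool.Agent.Y699.W

open Pool.Agent.H955R3.Window

variable {K : Type*} [Field K] [NumberField K]

theorem exists_pow_sub_one_mem_ge (ε : (𝓞 K)ˣ) (I : Ideal (𝓞 K)) (hI : I ≠ ⊥) (J : ℕ) :
    ∃ j : ℕ, J ≤ j ∧ 1 ≤ j ∧ (ε : 𝓞 K) ^ j - 1 ∈ I := by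
  obtain ⟨j0, h0, h1⟩ := exists_pow_sub_one_mem ε I hI
  refine ⟨j0 * (J + 1), ?_, ?_, ?_⟩
  · nlinarith
  · nlinarith
  · rw [pow_mul]
    have h2 : (ε : 𝓞 K) ^ j0 - 1 ∣ ((ε : 𝓞 K) ^ j0) ^ (J + 1) - 1 := by
      have := sub_dvd_pow_sub_pow ((ε : 𝓞 K) ^ j0) 1 (J + 1)
      rwa [one_pow] at this
    exact Ideal.mem_of_dvd _ h2 h1

set_option maxHeartbeats 4000000 in
/-- **Nothing below the norm.** -/
theorem absNorm_le (v w : AbsoluteValue K ℝ) (a b : ℕ) (ha : a = 1 ∨ a = 2)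
    (hb : b = 1 ∨ b = 2) (hN : ∀ x : K, |((Algebra.norm ℚ x : ℚ) : ℝ)| = v x ^ a * w x ^ b)
    (ε : (𝓞 K)ˣ) (hv : 1 < v ((ε : 𝓞 K) : K)) (hnu : ¬ IsUnit ((ε : 𝓞 K) - 1))
    (p : HeightOneSpectrum (𝓞 K)) (c : ℝ) (hc : c ∈ window p) :
    (Ideal.absNorm p.asIdeal : ℝ) ≤ c := by
  by_contra hlt
  push Not at hlt
  obtain ⟨hc0, -, -, -, heuc⟩ := hc
  set P : ℝ := (Ideal.absNorm p.asIdeal : ℝ) with hP
  have hP0 : 0 < P := absNorm_pos p
  set ρ : ℝ := c / P with hρ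
  have hρ0 : 0 < ρ := by positivity
  have hρ1 : ρ < 1 := by rw [hρ, div_lt_one hP0]; exact hlt
  obtain ⟨δ, hδ, J, hkeyJ⟩ := key v w a b ha hb hN ε hv hnu
  obtain ⟨k, hk⟩ := exists_pow_lt_of_lt_one hδ hρ1
  have hε1 : (ε : 𝓞 K) - 1 ≠ 0 := by
    intro h
    have h1 : (ε : 𝓞 K) = 1 := by linear_combination h
    rw [h1, cone, v.map_one] at hv
    exact lt_irrefl _ hv
  set ν : 𝓞 K → ℤ := fun r => FractionalIdeal.count K p
    (FractionalIdeal.spanSingleton (𝓞 K)⁰ (r : K)) with hν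
  set e : ℕ := (ν ((ε : 𝓞 K) - 1)).toNat with he
  have he' : (e : ℤ) = ν ((ε : 𝓞 K) - 1) := Int.toNat_of_nonneg (count_nonneg p _)
  have hIne : p.asIdeal ^ (e + 1 + k) ≠ ⊥ := by
    rw [← Ideal.zero_eq_bot]
    exact pow_ne_zero _ p.ne_bot
  obtain ⟨j, hjJ, hj1, hjmem⟩ := exists_pow_sub_one_mem_ge ε _ hIne J
  set t : 𝓞 K := (ε : 𝓞 K) ^ j - 1 with ht
  have ht0 : t ≠ 0 := by
    intro h
    have h1 : (ε : 𝓞 K) ^ j = 1 := by rw [ht] at h; linear_combination h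
    have h2 : v (((ε : 𝓞 K) ^ j : 𝓞 K) : K) = v ((ε : 𝓞 K) : K) ^ j := by
      rw [cpow, v.map_pow]
    rw [h1, cone, v.map_one] at h2
    have h3 : 1 < v ((ε : 𝓞 K) : K) ^ j := one_lt_pow₀ hv (by omega)
    linarith
  set b' : 𝓞 K := ((ε : 𝓞 K) - 1) * t with hb'
  have hb0 : b' ≠ 0 := mul_ne_zero hε1 ht0
  obtain ⟨q, hq⟩ := heuc (t + ((ε : 𝓞 K) - 1)) b' hb0
  have hkey := hkeyJ j hjJ q
  rw [← ht, ← hb'] at hkey
  set r : 𝓞 K := t + ((ε : 𝓞 K) - 1) - b' * q with hr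
  have hNb : 0 < |((Algebra.norm ℚ (b' : K) : ℚ) : ℝ)| :=
    lt_of_lt_of_le one_pos (one_le_abs_norm' b' hb0)
  have hNr : 0 < |((Algebra.norm ℚ (r : K) : ℚ) : ℝ)| :=
    lt_of_lt_of_le (mul_pos hδ hNb) hkey
  have hr0 : r ≠ 0 := by
    intro h
    rw [h] at hNr
    simp at hNr
  have hrK : (r : K) ≠ 0 := by
    intro h; apply hr0; exact_mod_cast h
  have hbK : (b' : K) ≠ 0 := by
    intro h; apply hb0; exact_mod_cast h
  simp only at hq
  rw [weightedNorm_eq p c _ hrK, weightedNorm_eq p c _ hbK, ← hP, ← hρ] at hq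
  -- valuations
  have htmem : t ∈ p.asIdeal ^ (e + 1) :=
    Ideal.pow_le_pow_right (by omega : e + 1 ≤ e + 1 + k) hjmem
  have hvr : ν r ≤ e := by
    by_contra hcon
    push Not at hcon
    have h1 : ((e + 1 : ℕ) : ℤ) ≤ ν r := by push_cast; omega
    have h2 := (le_count_iff p r hr0 (e + 1)).mp h1
    have h3 : b' * q ∈ p.asIdeal ^ (e + 1) := by
      apply Ideal.mul_mem_right
      rw [hb']
      exact Ideal.mul_mem_left _ _ htmem
    have h4 : ((ε : 𝓞 K) - 1) ∈ p.asIdeal ^ (e + 1) := by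
      have h5 : ((ε : 𝓞 K) - 1) = (r + b' * q) - t := by rw [hr]; ring
      rw [h5]
      exact Ideal.sub_mem _ (Ideal.add_mem _ h2 h3) htmem
    have h6 := (le_count_iff p _ hε1 (e + 1)).mpr h4
    have h7 : ((e + 1 : ℕ) : ℤ) ≤ ν ((ε : 𝓞 K) - 1) := h6
    rw [← he'] at h7
    push_cast at h7
    omega
  have hvb : ((e + (e + 1 + k) : ℕ) : ℤ) ≤ ν b' := by
    apply (le_count_iff p b' hb0 _).mpr
    rw [pow_add, hb']
    apply Ideal.mul_mem_mul _ hjmem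
    apply (le_count_iff p _ hε1 e).mp
    rw [he']
  have h1 : ρ ^ (e : ℤ) ≤ ρ ^ (ν r) := zpow_le_zpow_right_of_le_one₀ hρ0 hρ1.le hvr
  have h2 : ρ ^ (ν b') ≤ ρ ^ (((e + (e + 1 + k) : ℕ) : ℤ)) :=
    zpow_le_zpow_right_of_le_one₀ hρ0 hρ1.le hvb
  have hρe : 0 < ρ ^ e := by positivity
  have h3 : |((Algebra.norm ℚ (r : K) : ℚ) : ℝ)| * ρ ^ e <
      |((Algebra.norm ℚ (b' : K) : ℚ) : ℝ)| * (ρ ^ e * ρ ^ k) := by
    calc |((Algebra.norm ℚ (r : K) : ℚ) : ℝ)| * ρ ^ e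
        ≤ |((Algebra.norm ℚ (r : K) : ℚ) : ℝ)| * ρ ^ (ν r) := by
          apply mul_le_mul_of_nonneg_left _ hNr.le
          rw [← zpow_natCast]; exact h1
      _ < |((Algebra.norm ℚ (b' : K) : ℚ) : ℝ)| * ρ ^ (ν b') := hq
      _ ≤ |((Algebra.norm ℚ (b' : K) : ℚ) : ℝ)| * ρ ^ (((e + (e + 1 + k) : ℕ) : ℤ)) :=
          mul_le_mul_of_nonneg_left h2 hNb.le
      _ ≤ |((Algebra.norm ℚ (b' : K) : ℚ) : ℝ)| * (ρ ^ e * ρ ^ k) := by
          apply mul_le_mul_of_nonneg_left _ hNb.le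
          rw [zpow_natCast, ← pow_add]
          apply pow_le_pow_of_le_one hρ0.le hρ1.le
          omega
  have h4 : |((Algebra.norm ℚ (r : K) : ℚ) : ℝ)| <
      |((Algebra.norm ℚ (b' : K) : ℚ) : ℝ)| * ρ ^ k := by
    have h5 : |((Algebra.norm ℚ (r : K) : ℚ) : ℝ)| * ρ ^ e <
      (|((Algebra.norm ℚ (b' : K) : ℚ) : ℝ)| * ρ ^ k) * ρ ^ e := by
      calc _ < _ := h3
        _ = _ := by ring
    exact lt_of_mul_lt_mul_right h5 hρe.le
  have h6 : |((Algebra.norm ℚ (b' : K) : ℚ) : ℝ)| * ρ ^ k <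
      |((Algebra.norm ℚ (b' : K) : ℚ) : ℝ)| * δ :=
    mul_lt_mul_of_pos_left hk hNb
  linarith

/-- The two infinite places of a number field of unit rank one. -/
theorem exists_places (hK : NumberField.Units.rank K = 1) :
    ∃ v w : InfinitePlace K, v ≠ w ∧
      ∀ x : K, |((Algebra.norm ℚ x : ℚ) : ℝ)| = v x ^ v.mult * w x ^ w.mult := by
  classical
  have hcard : Fintype.card (InfinitePlace K) = 2 := by
    unfold NumberField.Units.rank at hK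
    omega
  have h2 : (Finset.univ : Finset (InfinitePlace K)).card = 2 := by
    rw [Finset.card_univ]; exact hcard
  obtain ⟨v, w, hvw, huniv⟩ := Finset.card_eq_two.mp h2
  refine ⟨v, w, hvw, fun x => ?_⟩
  have h := InfinitePlace.prod_eq_abs_norm x
  rw [huniv, Finset.prod_pair hvw] at h
  rw [h]
  push_cast
  rfl

theorem mult_eq (v : InfinitePlace K) : v.mult = 1 ∨ v.mult = 2 := by
  unfold InfinitePlace.mult
  split_ifs <;> simp

/-- **Unit rank one: nothing in the window of `𝔭` lies below `N𝔭`.** -/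
theorem absNorm_le_of_rank_one (hK : NumberField.Units.rank K = 1)
    (p : HeightOneSpectrum (𝓞 K)) (c : ℝ) (hc : c ∈ window p) :
    (Ideal.absNorm p.asIdeal : ℝ) ≤ c := by
  obtain ⟨v, w, hvw, hN⟩ := exists_places (K := K) hK
  obtain ⟨u, hu⟩ := NumberField.Units.dirichletUnitTheorem.exists_unit K v
  have hwu := hu w hvw.symm
  have hu0 : ((u : 𝓞 K) : K) ≠ 0 := NumberField.Units.coe_ne_zero u
  have hw0 : 0 < w ((u : 𝓞 K) : K) := InfinitePlace.pos_iff.mpr hu0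
  have hw1 : w ((u : 𝓞 K) : K) < 1 := by
    by_contra h
    push Not at h
    have := Real.log_nonneg h
    linarith
  have hwm : w.mult ≠ 0 := by rcases mult_eq w with h | h <;> omega
  have hvm : v.mult ≠ 0 := by rcases mult_eq v with h | h <;> omega
  have hprod : v ((u : 𝓞 K) : K) ^ v.mult * w ((u : 𝓞 K) : K) ^ w.mult = 1 := by
    rw [← hN, unit_norm]
  have hv1 : 1 < v ((u : 𝓞 K) : K) := by
    by_contra h
    push Not at h
    have h1 : v ((u : 𝓞 K) : K) ^ v.mult ≤ 1 := pow_le_one₀ (apply_nonneg v _) h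
    have h2 : w ((u : 𝓞 K) : K) ^ w.mult < 1 := pow_lt_one₀ hw0.le hw1 hwm
    have h3 : 0 < w ((u : 𝓞 K) : K) ^ w.mult := by positivity
    nlinarith
  obtain ⟨m, -, hm1, hmem⟩ := exists_pow_sub_one_mem_ge u p.asIdeal p.ne_bot 1
  have hmem' : (((u ^ m : (𝓞 K)ˣ)) : 𝓞 K) - 1 ∈ p.asIdeal := by
    rw [Units.val_pow_eq_pow_val]; exact hmem
  refine absNorm_le v.1 w.1 v.mult w.mult (mult_eq v) (mult_eq w) hN (u ^ m) ?_ ?_ p c hc
  · rw [Units.val_pow_eq_pow_val, cpow, v.1.map_pow]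
    exact one_lt_pow₀ hv1 (by omega)
  · intro h
    exact p.isPrime.ne_top (Ideal.eq_top_of_isUnit_mem _ hmem' h)

/-- `𝓞 K` is Euclidean for the absolute value of the norm. -/
def NormEuclidean (K : Type*) [Field K] [NumberField K] : Prop :=
  ∀ a b : 𝓞 K, b ≠ 0 → ∃ q : 𝓞 K, |Algebra.norm ℤ (a - b * q)| < |Algebra.norm ℤ b|

theorem normEuclidean_of_mem (p : HeightOneSpectrum (𝓞 K))
    (h : (Ideal.absNorm p.asIdeal : ℝ) ∈ window p) : NormEuclidean K := by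
  have hP0 := absNorm_pos p
  have hw : ∀ r : 𝓞 K, weightedNorm p (Ideal.absNorm p.asIdeal : ℝ) (r : K) =
      ((|Algebra.norm ℤ r| : ℤ) : ℝ) := by
    intro r
    by_cases hr : r = 0
    · subst hr
      simp [weightedNorm]
    · have hrK : (r : K) ≠ 0 := by
        intro h; apply hr; exact_mod_cast h
      rw [weightedNorm_eq p _ _ hrK, div_self hP0.ne', one_zpow, mul_one]
      have h1 : Algebra.norm ℚ (r : K) = ((Algebra.norm ℤ r : ℤ) : ℚ) := by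
        rw [← Algebra.coe_norm_int]
      rw [h1]
      push_cast
      rfl
  obtain ⟨-, -, -, -, heuc⟩ := h
  intro a b hb
  obtain ⟨q, hq⟩ := heuc a b hb
  refine ⟨q, ?_⟩
  simp only [hw] at hq
  exact_mod_cast hq

theorem mem_window_iff (p : HeightOneSpectrum (𝓞 K)) :
    (Ideal.absNorm p.asIdeal : ℝ) ∈ window p ↔ NormEuclidean K :=
  ⟨normEuclidean_of_mem p, fun h => absNorm_mem_window h p⟩

end Pool.Agent.Y699.W
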